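import Pool.Agent.helper35.OT.Spec

set_option autoImplicit false

namespace Pool.Agent.helper35.OT

open Finset

theorem RC_choose (m : ℕ) : 2 * (m + 1).choose 2 = m * m + m := by
  rw [Nat.choose_two_right]
  have h : (m + 1) * (m + 1 - 1) = m * (m + 1) := by
    rw [Nat.add_sub_cancel]; ring
  rw [h, Nat.mul_div_cancel' (Nat.even_mul_succ_self m).two_dvd]
  ring

theorem RC_half (r : ℕ → ℕ) (n : ℕ) :
    ∑ i ∈ range (n + 1), (if 2 * i = n then r i else 0) = if n % 2 = 0 then r (n / 2) else 0 := by
  by_cases h : n % 2 = 0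
  · rw [if_pos h, Finset.sum_eq_single (n / 2)]
    · rw [if_pos (by omega)]
    · intro b _ hb
      rw [if_neg (by omega)]
    · intro hb
      exact absurd (Finset.mem_range.2 (by omega)) hb
  · rw [if_neg h]
    apply Finset.sum_eq_zero
    intro i _
    rw [if_neg (by omega)]

theorem RC_refl (r : ℕ → ℕ) (n : ℕ) :
    ∑ i ∈ range (n + 1), (if n < 2 * i then r i * r (n - i) else 0) =
      ∑ i ∈ range (n + 1), (if 2 * i < n then r i * r (n - i) else 0) := by
  rw [← Finset.sum_range_reflect (fun i => if n < 2 * i then r i * r (n - i) else 0) (n + 1)]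
  apply Finset.sum_congr rfl
  intro j hj
  have hj' := Finset.mem_range.1 hj
  have h1 : n + 1 - 1 - j = n - j := by omega
  have h2 : n - (n - j) = j := by omega
  simp only [h1, h2]
  by_cases h : 2 * j < n
  · rw [if_pos h, if_pos (by omega), mul_comm]
  · rw [if_neg h, if_neg (by omega)]

theorem RC_main (r : ℕ → ℕ) (n : ℕ) :
    2 * ∑ i ∈ range (n + 1), (if 2 * i < n then r i * r (n - i)
        else if 2 * i = n then (r i + 1).choose 2 else 0) =
      ∑ i ∈ range (n + 1), r i * r (n - i) + if n % 2 = 0 then r (n / 2) else 0 := by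
  have h1 : ∑ i ∈ range (n + 1), r i * r (n - i) =
      ∑ i ∈ range (n + 1), (if 2 * i < n then r i * r (n - i) else 0) +
        (∑ i ∈ range (n + 1), (if 2 * i = n then r i * r i else 0) +
          ∑ i ∈ range (n + 1), (if n < 2 * i then r i * r (n - i) else 0)) := by
    rw [← Finset.sum_add_distrib, ← Finset.sum_add_distrib]
    apply Finset.sum_congr rfl
    intro i _
    rcases lt_trichotomy (2 * i) n with h | h | h
    · rw [if_pos h, if_neg (by omega), if_neg (by omega)]
      ring
    · have h3 : n - i = i := by omega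
      rw [if_neg (by omega), if_pos h, if_neg (by omega), h3]
      ring
    · rw [if_neg (by omega), if_neg (by omega), if_pos h]
      ring
  rw [h1, RC_refl, ← RC_half r n, Finset.mul_sum, ← Finset.sum_add_distrib,
    ← Finset.sum_add_distrib, ← Finset.sum_add_distrib]
  apply Finset.sum_congr rfl
  intro i _
  rcases lt_trichotomy (2 * i) n with h | h | h
  · rw [if_pos h, if_pos h, if_neg (by omega), if_neg (by omega)]
    ring
  · rw [if_neg (by omega), if_pos h, if_neg (by omega), if_pos h, if_pos h, RC_choose]
    ring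
  · rw [if_neg (by omega), if_neg (by omega), if_neg (by omega), if_neg (by omega),
      if_neg (by omega)]
    norm_num

theorem RC : RC_stmt := by
  intro c0 c1 c2
  refine ⟨by rw [cnt], fun n => ?_⟩
  have h := RC_main (cnt c0 c1 c2) n
  rw [← h, Finset.sum_range (fun i => if 2 * i < n then cnt c0 c1 c2 i * cnt c0 c1 c2 (n - i)
        else if 2 * i = n then (cnt c0 c1 c2 i + 1).choose 2 else 0)]
  rw [cnt]
  ring

end Pool.Agent.helper35.OT
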